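import Pool.Agent.H82.C3.Main

set_option autoImplicit false

/-! # At least `X ^ (2/3 - ε)` imaginary quadratic fields of `3`-rank at least two

For every `ε > 0` there are, for all large `X`, at least `X ^ (2/3 - ε)` imaginary quadratic fields
with discriminant of absolute value at most `X` such that the `3`-part of the class group maps onto
`(ℤ/3)²`.

The fields come from the identity `4 m₁³ - n₁² = 4 m₂³ - n₂² = D`, where `p = a² + a b + b²`,
`e = x² + x y + y²`, `m₁ = a x - b y`, `m₂ = b x + (a + b) y`, `n₁ = e - (m₂ - m₁) p`,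
`n₂ = e + (m₂ - m₁) p`, with `a, b` of size `T` and `x, y` of size `T³`: there are about `T ^ 8`
quadruples and `D` has size `T ^ 12`. A positive proportion of the `D` is squarefree (small primes are
sieved out by counting on lines; the primes above `T³/1000` by a bound for the number of points
`4 m³ = n² + d f²` which comes from an average bound for the `3`-torsion of class groups), and the
number of coincidences between the values is at most `T ^ (8 + ε)`. If `D` is squarefree, the field of
discriminant `-D` has two independent ideal classes of order `3`, with ideals of norms `m₁` and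
`m₂`. -/

namespace Pool.Agent.Results.MP_0f260b_nt.ThreeRankTwoThirds

open NumberField

/-- The imaginary quadratic fields in `ℂ` with discriminant of absolute value at most `X`. -/
def ImQuad (X : ℝ) : Set (IntermediateField ℚ ℂ) :=
  {K | ∃ _ : NumberField K, Module.finrank ℚ K = 2 ∧ (∃ x : K, (x : ℂ).im ≠ 0) ∧
    |((discr K : ℤ) : ℝ)| ≤ X}

/-- The `3`-primary part of the class group of `K`. -/
noncomputable def ThreePart (K : IntermediateField ℚ ℂ) : Subgroup (ClassGroup (𝓞 K)) :=
  Subgroup.closure {x | ∃ n : ℕ, x ^ 3 ^ n = 1}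

theorem result (ε : ℝ) (hε : 0 < ε) : ∃ X₀ : ℝ, ∀ X : ℝ, X₀ ≤ X →
    X ^ (2 / 3 - ε) ≤ ({K | K ∈ ImQuad X ∧ ∃ φ : ThreePart K →* Multiplicative (ZMod 3 × ZMod 3),
      Function.Surjective φ}.ncard : ℝ) := by
  obtain ⟨X0, h⟩ := Pool.Agent.H82.C3.main_final ε hε
  refine ⟨X0, fun X hX => ?_⟩
  have h1 := h X hX
  have h2 : {K | K ∈ ImQuad X ∧ ∃ φ : ThreePart K →* Multiplicative (ZMod 3 × ZMod 3),
      Function.Surjective φ} = {K | K ∈ Pool.Agent.Y215.CT.ImQuad X ∧
        Nonempty (Pool.Agent.H82.C3.Sur3 K)} := by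
    ext K
    constructor
    · rintro ⟨h1, φ, h2⟩
      exact ⟨h1, ⟨⟨φ, h2⟩⟩⟩
    · rintro ⟨h1, ⟨⟨φ, h2⟩⟩⟩
      exact ⟨h1, φ, h2⟩
  rw [h2]
  exact h1

end Pool.Agent.Results.MP_0f260b_nt.ThreeRankTwoThirds
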